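import Pool.Agent.helper82.LEQ.Spec

/-!
# Row lq:MB (MP_e82547_al): the defining property of the Moebius function
-/

set_option autoImplicit false

namespace LEQ

open scoped BigOperators
open QS (Lef EAb)

theorem MB_bot {G : Type} [Group G] (g : G) : Stb g (⊥ : Subgroup G) := by
  intro x
  rw [Subgroup.mem_bot, Subgroup.mem_bot]
  constructor
  · rintro rfl
    group
  · intro h
    have h1 : x = g⁻¹ * (g * x * g⁻¹) * g := by group
    rw [h1, h]
    group

theorem MB (h1 : XT_stmt) : MB_stmt := by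
  classical
  intro G _ _ g E hE
  refine ⟨fun h => ?_, fun h => ?_⟩
  · subst h
    have h2 : FS (fun F : Subgroup G => F ≤ ⊥ ∧ Stb g F) = {⊥} := by
      ext F
      rw [mem_FS, Finset.mem_singleton]
      constructor
      · rintro ⟨h3, _⟩
        exact le_bot_iff.1 h3
      · rintro rfl
        exact ⟨le_refl _, MB_bot g⟩
    rw [h2, Finset.sum_singleton, Mb, if_pos rfl]
  · have h2 : FS (fun F : Subgroup G => F ≤ E ∧ Stb g F) =
        insert ⊥ (insert E (FS (fun F : Subgroup G => F ≠ ⊥ ∧ F < E ∧ Stb g F))) := by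
      ext F
      rw [mem_FS, Finset.mem_insert, Finset.mem_insert, mem_FS]
      constructor
      · rintro ⟨h3, h4⟩
        by_cases h5 : F = ⊥
        · exact Or.inl h5
        · by_cases h6 : F = E
          · exact Or.inr (Or.inl h6)
          · exact Or.inr (Or.inr ⟨h5, lt_of_le_of_ne h3 h6, h4⟩)
      · rintro (rfl | rfl | ⟨_, h4, h5⟩)
        · exact ⟨bot_le, MB_bot g⟩
        · exact ⟨le_refl _, hE⟩
        · exact ⟨h4.le, h5⟩
    have h3 : E ∉ FS (fun F : Subgroup G => F ≠ ⊥ ∧ F < E ∧ Stb g F) := by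
      rw [mem_FS]
      rintro ⟨_, h4, _⟩
      exact lt_irrefl _ h4
    have h4 : (⊥ : Subgroup G) ∉ insert E (FS (fun F : Subgroup G => F ≠ ⊥ ∧ F < E ∧ Stb g F)) := by
      rw [Finset.mem_insert, mem_FS]
      rintro (h5 | ⟨h5, _⟩)
      · exact h h5.symm
      · exact h5 rfl
    rw [h2, Finset.sum_insert h4, Finset.sum_insert h3]
    have h5 : Mb g (⊥ : Subgroup G) = 1 := by rw [Mb, if_pos rfl]
    have h6 : Mb g E = -1 - ∑ F ∈ FS (fun F : Subgroup G => F ≠ ⊥ ∧ F < E ∧ Stb g F), Mb g F := by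
      rw [Mb, if_neg h, h1]
      congr 1
      refine Finset.sum_congr rfl fun F hF => ?_
      rw [mem_FS] at hF
      rw [Mb, if_neg hF.1]
      congr 1
      funext F'
      apply propext
      constructor
      · rintro ⟨⟨a, _, c⟩, d⟩
        exact ⟨a, d, c⟩
      · rintro ⟨a, d, c⟩
        exact ⟨⟨a, d.trans hF.2.1, c⟩, d⟩
    rw [h5, h6]
    ring

end LEQ
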